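import Pool.Agent.J6H71.Dist.K

/-!
Question Q2 of MP_e59edf_an: automorphism groups of one-sided full shifts over large alphabets
contain distortion elements.

Idea of the proof. Odd cells carry a digit, a register, a scratch element and an array; an even cell
carries the content of a cell one level up. All gates only read to the right and are involutions;
a gate one level up is emulated by a word of gates whose ancillas may hold arbitrary values and are
restored. The basic step advances the digits of the odd cells and executes the gate which a program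
prescribes for the digit, and the program emulates the basic step one level up, so its `N`-th power
is a conjugate of the lift of the step, and it is a short word.
-/

set_option autoImplicit false

open Filter Topology

namespace Pool.Agent.Results.MP_e59edf_an.FullShiftDistortion

open Pool.Agent.J6H71.Dist

/-- The left shift on `A^ℕ`. -/
def shift {A : Type} (x : ℕ → A) : ℕ → A := fun n => x (n + 1)

/-- commuting with the shift -/
def Commutes {A : Type} [TopologicalSpace A] (f : (ℕ → A) ≃ₜ (ℕ → A)) : Prop :=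
  ∀ x, f (shift x) = shift (f x)

theorem Commutes.mul {A : Type} [TopologicalSpace A] {f g : (ℕ → A) ≃ₜ (ℕ → A)}
    (hf : Commutes f) (hg : Commutes g) : Commutes (f * g) := by
  intro x
  show f (g (shift x)) = shift (f (g x))
  rw [hg, hf]

theorem Commutes.one {A : Type} [TopologicalSpace A] :
    Commutes (1 : (ℕ → A) ≃ₜ (ℕ → A)) := fun _ => rfl

theorem Commutes.inv {A : Type} [TopologicalSpace A] {f : (ℕ → A) ≃ₜ (ℕ → A)}
    (hf : Commutes f) : Commutes f⁻¹ := by
  intro x
  show f.symm (shift x) = shift (f.symm x)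
  apply f.injective
  rw [f.apply_symm_apply, hf, f.apply_symm_apply]

/-- `Aut(A^ℕ)`: the group of the homeomorphisms of `A^ℕ` which commute with the shift. -/
def AutShift (A : Type) [TopologicalSpace A] : Subgroup ((ℕ → A) ≃ₜ (ℕ → A)) where
  carrier := {f | Commutes f}
  mul_mem' := Commutes.mul
  one_mem' := Commutes.one
  inv_mem' := Commutes.inv

/-- The word norm: the least length of a product of elements of `S` and their inverses which is
equal to `g`. -/
noncomputable def wordNorm {G : Type} [Group G] (S : Set G) (g : G) : ℕ :=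
  sInf {m | ∃ l : List G, l.length = m ∧ (∀ s ∈ l, s ∈ S ∨ s⁻¹ ∈ S) ∧ l.prod = g}

/-- Distortion elements: elements `g` of infinite order in the subgroup generated by a finite set
`S` with `|g^n|_S / n → 0`. -/
def IsDistortion {G : Type} [Group G] (g : G) : Prop :=
  ¬ IsOfFinOrder g ∧ ∃ S : Finset G, g ∈ Subgroup.closure (S : Set G) ∧
    Tendsto (fun n : ℕ => (wordNorm (S : Set G) (g ^ n) : ℝ) / n) atTop (𝓝 0)

/-- `g` lies in the subgroup generated by a finite set `S` with `|g^n|_S = O(n^α)`. -/
def PolyDistorted {G : Type} [Group G] (α : ℝ) (g : G) : Prop :=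
  ∃ S : Finset G, g ∈ Subgroup.closure (S : Set G) ∧
    ∃ C : ℝ, ∀ n : ℕ, 1 ≤ n → (wordNorm (S : Set G) (g ^ n) : ℝ) ≤ C * (n : ℝ) ^ α

theorem tendsto_of_bound {u : ℕ → ℕ} {C β : ℝ} (hβ : β < 1)
    (h : ∀ n : ℕ, 1 ≤ n → (u n : ℝ) ≤ C * (n : ℝ) ^ β) :
    Tendsto (fun n : ℕ => (u n : ℝ) / n) atTop (𝓝 0) := by
  have h1 : Tendsto (fun n : ℕ => C * (n : ℝ) ^ (-(1 - β))) atTop (𝓝 0) := by
    have h2 := (tendsto_rpow_neg_atTop (show 0 < 1 - β by linarith)).comp
      (tendsto_natCast_atTop_atTop (R := ℝ))
    have h3 := h2.const_mul C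
    rw [mul_zero] at h3
    exact h3
  apply squeeze_zero' (Eventually.of_forall fun n => by positivity) _ h1
  filter_upwards [eventually_ge_atTop 1] with n hn
  have hn' : (0 : ℝ) < n := by exact_mod_cast hn
  rw [div_le_iff₀ hn', mul_assoc]
  have h4 : (n : ℝ) ^ (-(1 - β)) * (n : ℝ) = (n : ℝ) ^ β := by
    conv_lhs => rw [← Real.rpow_one (n : ℝ), ← Real.rpow_mul hn'.le, ← Real.rpow_add hn']
    congr 1
    ring
  rw [h4]
  exact h n hn

theorem exists_finset {α β : Type} [Finite α] (f : α → β) : ∃ S : Finset β, ∀ a, f a ∈ (S : Set β) := by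
  classical
  have := Fintype.ofFinite α
  exact ⟨Finset.univ.image f, fun a => Finset.mem_coe.mpr
    (Finset.mem_image_of_mem _ (Finset.mem_univ a))⟩

/-- **Distortion elements in the automorphism groups of one-sided full shifts.** For every `α > 0`
and every finite alphabet `A` with sufficiently many letters, `Aut(A^ℕ)` contains a distortion
element `g` with `|g^n|_S = O(n^α)`. -/
theorem result (α : ℝ) (hα : 0 < α) : ∃ n₀ : ℕ, ∀ (A : Type) [Fintype A] [TopologicalSpace A]
    [DiscreteTopology A], n₀ ≤ Fintype.card A →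
      ∃ g : AutShift A, IsDistortion g ∧ PolyDistorted α g := by
  classical
  obtain ⟨L0, hL0⟩ := exists_bound
  set L := max L0 2 with hLdef
  have hL : ∀ l, (PhiL l).length ≤ L := fun l => (hL0 l).trans (le_max_left _ _)
  have hL2 : 2 ≤ L := le_max_right _ _
  set β : ℝ := min α (1 / 2) with hβdef
  have hβ0 : 0 < β := lt_min hα (by norm_num)
  have hβ1 : β < 1 := lt_of_le_of_lt (min_le_right _ _) (by norm_num)
  have hβα : β ≤ α := min_le_left _ _
  set N := max (2 * Pg.length + 1) ⌈(L : ℝ) ^ (1 / β)⌉₊ with hNdef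
  have hN1 : 2 * Pg.length < N := lt_of_lt_of_le (Nat.lt_succ_self _) (le_max_left _ _)
  have hN2 : (L : ℝ) ^ (1 / β) ≤ N := (Nat.le_ceil _).trans (by exact_mod_cast le_max_right _ _)
  have hLN : (L : ℝ) ≤ (N : ℝ) ^ β := by
    have h1 : ((L : ℝ) ^ (1 / β)) ^ β = L := by
      rw [← Real.rpow_mul (by positivity), one_div, inv_mul_cancel₀ hβ0.ne', Real.rpow_one]
    rw [← h1]
    exact Real.rpow_le_rpow (by positivity) hN2 hβ0.le
  have hNz : NeZero N := ⟨by omega⟩
  set pr := prN N with hpr
  have hG : Good pr := good_prN hN1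
  have hfin : Finite (A0 N) := inferInstance
  refine ⟨Nat.card (A0 N), ?_⟩
  intro A _ _ _ hcard
  have : Fintype (A0 N) := Fintype.ofFinite _
  have hemb : Nonempty (A0 N ↪ A) := by
    apply Function.Embedding.nonempty_of_card_le
    rwa [← Nat.card_eq_fintype_card]
  obtain ⟨e⟩ := hemb
  set dec : A → Option (A0 N) := fun a => if h : ∃ q, e q = a then some h.choose else none with hdec
  have hde : ∀ q, dec (e q) = some q := by
    intro q
    have h : ∃ q', e q' = e q := ⟨q, rfl⟩
    simp only [hdec]
    rw [dif_pos h]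
    congr 1
    exact e.injective h.choose_spec
  have hed : ∀ a q, dec a = some q → e q = a := by
    intro a q h
    simp only [hdec] at h
    split_ifs at h with h1
    rw [← Option.some.inj h]
    exact h1.choose_spec
  let rho : Lt → AutShift A := fun l => ⟨ho pr hde hed l, fun x => T_sh pr [l] x⟩
  -- products
  have hprod : ∀ (w : List Lt) (x : ℕ → A),
      ((w.reverse.map rho).prod : (ℕ → A) ≃ₜ (ℕ → A)) x = T pr e dec w x := by
    intro w x
    have h1 : ((w.reverse.map rho).prod : (ℕ → A) ≃ₜ (ℕ → A)) =
        (w.reverse.map (ho pr hde hed)).prod := by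
      have h2 := map_list_prod (AutShift A).subtype (w.reverse.map rho)
      rw [List.map_map] at h2
      exact h2
    rw [h1, prod_ho]
  have hpow : ∀ n : ℕ, rho .F ^ n = ((List.replicate n Lt.F).reverse.map rho).prod := by
    intro n
    rw [List.reverse_replicate, List.map_replicate, List.prod_replicate]
  have hword : ∀ (n : ℕ) (w : List Lt), (∀ (S : Sys ℕ) (v : ℕ → V N),
      runL pr S w v = (step pr S)^[n] v) → rho .F ^ n = (w.reverse.map rho).prod := by
    intro n w hw
    rw [hpow]
    apply Subtype.ext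
    apply Homeomorph.ext
    intro x
    rw [hprod, hprod]
    apply T_congr
    intro S v
    rw [hw, runL_F]
  obtain ⟨S, hSmem⟩ := exists_finset rho
  have hnorm : ∀ (n : ℕ) (w : List Lt), (∀ (S : Sys ℕ) (v : ℕ → V N),
      runL pr S w v = (step pr S)^[n] v) →
      wordNorm (S : Set (AutShift A)) (rho .F ^ n) ≤ w.length := by
    intro n w hw
    apply Nat.sInf_le
    refine ⟨w.reverse.map rho, by simp, ?_, (hword n w hw).symm⟩
    intro s hs
    rw [List.mem_map] at hs
    obtain ⟨l, -, rfl⟩ := hs
    exact Or.inl (hSmem l)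
  have hcl : rho .F ∈ Subgroup.closure (S : Set (AutShift A)) := Subgroup.subset_closure (hSmem .F)
  -- the polynomial bound
  have hNpos : 0 < N := by omega
  have hN3 : 1 < N := by
    by_contra hlt
    have h1 : N = 1 := by omega
    have h2 : (L : ℝ) ≤ 1 := by
      rw [h1] at hLN
      simpa using hLN
    have h3 : (2 : ℝ) ≤ L := by exact_mod_cast hL2
    linarith
  have hbound : ∀ n : ℕ, 1 ≤ n →
      (wordNorm (S : Set (AutShift A)) (rho .F ^ n) : ℝ) ≤ (N * L : ℝ) * (n : ℝ) ^ β := by
    intro n hn
    set K := Nat.log N n with hK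
    have h1 : n < N ^ (K + 1) := Nat.lt_pow_succ_log_self hN3 n
    have h2 : N ^ K ≤ n := Nat.pow_log_le_self N (by omega)
    obtain ⟨w, hw1, hw2⟩ := short_words hG hL hL2 (K + 1) n h1
    have h3 := (hnorm n w (fun S v => hw2 ℕ S v)).trans hw1
    have h4 : ((L : ℝ)) ^ K ≤ (n : ℝ) ^ β := by
      calc (L : ℝ) ^ K ≤ ((N : ℝ) ^ β) ^ K := pow_le_pow_left₀ (by positivity) hLN K
        _ = ((N : ℝ) ^ K) ^ β := by
          rw [← Real.rpow_natCast, ← Real.rpow_mul (by positivity), mul_comm,
            Real.rpow_mul (by positivity), Real.rpow_natCast]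
        _ ≤ (n : ℝ) ^ β := Real.rpow_le_rpow (by positivity) (by exact_mod_cast h2) hβ0.le
    calc (wordNorm (S : Set (AutShift A)) (rho .F ^ n) : ℝ) ≤ ((N * L ^ (K + 1) : ℕ) : ℝ) := by
          exact_mod_cast h3
      _ = (N * L : ℝ) * (L : ℝ) ^ K := by push_cast; ring
      _ ≤ (N * L : ℝ) * (n : ℝ) ^ β := mul_le_mul_of_nonneg_left h4 (by positivity)
  refine ⟨rho .F, ⟨?_, S, hcl, tendsto_of_bound hβ1 hbound⟩, S, hcl, N * L, ?_⟩
  · intro hfo
    obtain ⟨m, hm0, hm⟩ := isOfFinOrder_iff_pow_eq_one.mp hfo
    obtain ⟨p, t, v, hv⟩ := nontrivial_iter hG m hm0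
    apply hv
    let x : ℕ → A := fun i => e (p i, t i, v i)
    have hx : ∀ i, dec (x i) = some (p i, t i, v i) := fun i => hde _
    have hSx : Sx dec x = base (fun _ => true) p t := by
      unfold Sx
      have h1 : xa dec x = fun _ => true := by funext i; unfold xa; rw [hx]; rfl
      have h2 : xp dec x = p := by funext i; unfold xp; rw [hx]; rfl
      have h3 : xt dec x = t := by funext i; unfold xt; rw [hx]; rfl
      rw [h1, h2, h3]
    have hxv : xv dec x = v := by funext i; unfold xv; rw [hx]; rfl
    have h1 : T pr e dec (List.replicate m Lt.F) x = x := by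
      rw [← hprod, ← hpow, hm]
      rfl
    funext i
    have h2 := congrFun h1 i
    rw [T_some pr (hx i), hSx, hxv, runL_F] at h2
    have h3 := e.injective h2
    exact congrArg (fun q => q.2.2) h3
  · intro n hn
    refine (hbound n hn).trans ?_
    apply mul_le_mul_of_nonneg_left _ (by positivity)
    exact Real.rpow_le_rpow_of_exponent_le (by exact_mod_cast hn) hβα

end Pool.Agent.Results.MP_e59edf_an.FullShiftDistortion
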